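import Pool.Agent.Lib_helper7.CpCw.Final

set_option autoImplicit false

open Topology

namespace Pool.Agent.Results.MP_7df33c_an.WeakNeverPointwise

universe u v

/-- Let `K` be a compact Hausdorff space and `X` a real normed space. Every continuous map from
`C_p(K)` to `X` with its weak topology is norm-bounded near every point; hence `C_p(K)` is never
homeomorphic to an infinite-dimensional `X` with its weak topology. In particular `C_p(K)` and
`C_w(L)` are not homeomorphic for compact `K` and infinite compact `L`. -/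
theorem result (K : Type u) [TopologicalSpace K] [CompactSpace K] [T2Space K] :
    (∀ (X : Type v) [NormedAddCommGroup X] [NormedSpace ℝ X]
      (Φ : {f : K → ℝ // Continuous f} → WeakSpace ℝ X), Continuous Φ →
      ∀ f₀ : {f : K → ℝ // Continuous f}, ∃ H : ℝ, ∃ O ∈ 𝓝 f₀, ∀ f ∈ O,
        ‖(toWeakSpace ℝ X).symm (Φ f)‖ ≤ H) ∧
    (∀ (X : Type v) [NormedAddCommGroup X] [NormedSpace ℝ X], ¬ FiniteDimensional ℝ X →
      ¬ Nonempty ({f : K → ℝ // Continuous f} ≃ₜ WeakSpace ℝ X)) ∧
    (∀ (L : Type v) [TopologicalSpace L] [CompactSpace L] [T2Space L] [Infinite L],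
      ¬ Nonempty ({f : K → ℝ // Continuous f} ≃ₜ WeakSpace ℝ C(L, ℝ))) :=
  ⟨fun X _ _ Φ hΦ f₀ => Pool.Agent.CpCw.locally_bounded' Φ hΦ f₀,
    fun X _ _ hX => Pool.Agent.CpCw.not_homeomorph hX,
    fun L _ _ _ _ => Pool.Agent.CpCw.not_homeomorph Pool.Agent.CpCw.not_finite⟩

end Pool.Agent.Results.MP_7df33c_an.WeakNeverPointwise
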